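import Pool.Agent.N550.TS.All2
import Pool.Agent.U890.SB.Mazur

/-!
# Homeomorphisms of closed manifolds which are local diffeomorphisms off an open cell

Tools: two points (finitely many points) of a connected manifold lie in an open cell; a homeomorphism
which is a local diffeomorphism off a finite set, or off a ball with a preimage which embeds in the
Euclidean space, can be replaced by one which is a local diffeomorphism off one point.
-/

set_option autoImplicit false
set_option linter.unusedSectionVars false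

open Set Filter Topology Metric Function MeasureTheory
open scoped Manifold ContDiff

noncomputable section

namespace Pool.Agent.U212.SM

open Pool.Agent.Y522 Pool.Agent.N550.KH

section cells

variable {n : ℕ} {N : Type} [TopologicalSpace N] [ChartedSpace (E n) N]

/-- open cells -/
def IsCell (n : ℕ) {N : Type} [TopologicalSpace N] [ChartedSpace (E n) N] (c : E n → N) : Prop :=
  Injective c ∧ ∀ z, LD n c z

theorem IsCell.emb {c : E n → N} (hc : IsCell n c) : IsOpenEmbedding c :=
  Asm.isOpenEmb hc.1 hc.2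

theorem IsCell.push {c : E n → N} (hc : IsCell n c) {K : N → N} (hK : IsDf n K) :
    IsCell n (fun z => K (c z)) :=
  ⟨hK.1.1.comp hc.1, fun z => LD.comp_fun (hK.2 _) (hc.2 z)⟩

theorem IsCell.small {c : E n → N} (hc : IsCell n c) {r : ℝ} (hr : 0 < r) :
    IsCell n (fun z => c (End.jb r z)) ∧ range (fun z => c (End.jb r z)) = c '' ball 0 r := by
  refine ⟨⟨hc.1.comp (End.jb_inj r hr), fun z => LD.comp_fun (hc.2 _) (End.jb_LD r hr z)⟩, ?_⟩
  ext x
  constructor
  · rintro ⟨z, rfl⟩
    exact ⟨End.jb r z, mem_ball_zero_iff.2 (End.jb_norm r hr z), rfl⟩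
  · rintro ⟨w, hw, rfl⟩
    obtain ⟨z, rfl⟩ := End.jb_surj r hr w (mem_ball_zero_iff.1 hw)
    exact ⟨z, rfl⟩

variable [T2Space N]

/-- one cell is moved over a large part of another one -/
theorem expand {c c' : E n → N} (hc : IsCell n c) (hc' : IsCell n c')
    (h : (range c ∩ range c').Nonempty) (R : ℝ) :
    ∃ K : N → N, IsDf n K ∧ (∀ x, x ∉ range c → K x = x) ∧
      c '' closedBall 0 R ⊆ range fun z => K (c' z) := by
  obtain ⟨y, ⟨z₀, rfl⟩, hy⟩ := h
  have hopen : IsOpen (c ⁻¹' range c') := hc'.emb.isOpen_range.preimage hc.emb.continuous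
  obtain ⟨ε, hε, hb⟩ := Metric.isOpen_iff.1 hopen z₀ hy
  obtain ⟨κ, hκ, hκs, hκb⟩ := Shift.s_bs n z₀ ε R hε
  obtain ⟨K, hK, hKb, hKo⟩ := Supp.main n N c hc.1 hc.2 κ hκ hκs
  refine ⟨K, hK, hKo, ?_⟩
  rintro _ ⟨w, hw, rfl⟩
  obtain ⟨v, hv, rfl⟩ := hκb hw
  obtain ⟨u, hu⟩ := hb hv
  refine ⟨u, ?_⟩
  show K (c' u) = c (κ v)
  rw [hu]
  exact hKb v

variable [IsManifold (𝓡 n) ∞ N]

/-- two points of a connected manifold lie in an open cell -/
theorem common_two [PreconnectedSpace N] (x y : N) :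
    ∃ c : E n → N, IsCell n c ∧ x ∈ range c ∧ y ∈ range c := by
  set S : Set N := {y | ∃ c : E n → N, IsCell n c ∧ x ∈ range c ∧ y ∈ range c} with hS
  have hSo : IsOpen S := by
    rw [isOpen_iff_mem_nhds]
    rintro y ⟨c, hc, hx, hy⟩
    filter_upwards [hc.emb.isOpen_range.mem_nhds hy] with w hw
    exact ⟨c, hc, hx, hw⟩
  have hSc : IsClosed S := by
    rw [← isOpen_compl_iff, isOpen_iff_mem_nhds]
    intro z hz
    obtain ⟨c', hi', hl', h0⟩ := Pool.Agent.N550.TS.Flm.exists_cell0 (n := n) z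
    have hc' : IsCell n c' := ⟨hi', hl'⟩
    have hzc' : z ∈ range c' := ⟨0, h0⟩
    filter_upwards [hc'.emb.isOpen_range.mem_nhds hzc'] with w hw
    rintro ⟨c, hc, hx, hwc⟩
    apply hz
    by_cases hzc : z ∈ range c
    · exact ⟨c, hc, hx, hzc⟩
    obtain ⟨v, rfl⟩ := hx
    obtain ⟨K, hK, hKo, hKr⟩ := expand hc hc' ⟨w, hwc, hw⟩ ‖v‖
    refine ⟨fun z => K (c' z), hc'.push hK, ?_, ⟨0, ?_⟩⟩
    · exact hKr ⟨v, mem_closedBall_zero_iff.2 le_rfl, rfl⟩
    · show K (c' 0) = z
      rw [h0, hKo z hzc]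
  have hSne : S.Nonempty := by
    obtain ⟨c', hi', hl', h0⟩ := Pool.Agent.N550.TS.Flm.exists_cell0 (n := n) x
    exact ⟨x, c', ⟨hi', hl'⟩, ⟨0, h0⟩, ⟨0, h0⟩⟩
  have : S = univ := IsClopen.eq_univ ⟨hSc, hSo⟩ hSne
  exact (this ▸ mem_univ y : y ∈ S)

/-- finitely many points of a connected manifold lie in an open cell -/
theorem common_finite [PreconnectedSpace N] [Nonempty N] (F : Set N) (hF : F.Finite) :
    ∃ c : E n → N, IsCell n c ∧ F ⊆ range c := by
  induction F, hF using Set.Finite.induction_on with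
  | empty =>
    obtain ⟨x⟩ := (inferInstance : Nonempty N)
    obtain ⟨c', hi', hl', h0⟩ := Pool.Agent.N550.TS.Flm.exists_cell0 (n := n) x
    exact ⟨c', ⟨hi', hl'⟩, empty_subset _⟩
  | @insert z F _ hF ih =>
    obtain ⟨c, hc, hFc⟩ := ih
    by_cases hz : z ∈ range c
    · exact ⟨c, hc, insert_subset hz hFc⟩
    obtain ⟨c', hc', hy, hzc'⟩ := common_two (n := n) (c 0) z
    obtain ⟨R, hR⟩ : ∃ R : ℝ, F ⊆ c '' closedBall 0 R := by
      have h1 : (c ⁻¹' F).Finite := hF.preimage hc.1.injOn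
      obtain ⟨R, hR⟩ := h1.isBounded.subset_closedBall (0 : E n)
      refine ⟨R, fun x hx => ?_⟩
      obtain ⟨w, rfl⟩ := hFc hx
      exact ⟨w, hR hx, rfl⟩
    obtain ⟨K, hK, hKo, hKr⟩ := expand hc hc' ⟨c 0, mem_range_self 0, hy⟩ R
    refine ⟨fun z => K (c' z), hc'.push hK, insert_subset ?_ (hR.trans hKr)⟩
    obtain ⟨w, rfl⟩ := hzc'
    exact ⟨w, hKo _ hz⟩

end cells

section one

variable {n : ℕ} {M N P : Type} [TopologicalSpace M] [ChartedSpace (E n) M]
  [IsManifold (𝓡 n) ∞ M] [TopologicalSpace N] [ChartedSpace (E n) N] [IsManifold (𝓡 n) ∞ N]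
  [TopologicalSpace P] [ChartedSpace (E n) P] [IsManifold (𝓡 n) ∞ P]

/-- a homeomorphism which is a local diffeomorphism at all points but one -/
def OffPoint (n : ℕ) (M N : Type) [TopologicalSpace M] [ChartedSpace (E n) M]
    [TopologicalSpace N] [ChartedSpace (E n) N] : Prop :=
  ∃ (G : M ≃ₜ N) (x₀ : M), ∀ x, x ≠ x₀ → LD n G x

/-- the inverse of a homeomorphism -/
theorem LD_symm (G : M ≃ₜ N) {x : M} (hx : LD n G x) : LD n G.symm (G x) :=
  LD.inverse (U := {x | LD n G x}) (Fin'.isOpen_ld G) (fun _ h => h)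
    (fun x _ => G.symm_apply_apply x) hx

theorem OffPoint.symm (h : OffPoint n M N) : OffPoint n N M := by
  obtain ⟨G, x₀, hG⟩ := h
  refine ⟨G.symm, G x₀, fun y hy => ?_⟩
  have h1 : G.symm y ≠ x₀ := fun h => hy (by rw [← h, G.apply_symm_apply])
  have h2 := LD_symm G (hG _ h1)
  rwa [G.apply_symm_apply] at h2

theorem bad_sub (G : M → N) : Bad n G ⊆ {x | ¬ LD n G x} := by
  intro x hx h
  apply hx
  have h1 : LD n G x := h
  filter_upwards [h1.eventually] with y hy
  exact hy.contMDiffAt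

omit [IsManifold (𝓡 n) ∞ N] in
theorem nullH_finite {F : Set N} (hF : F.Finite) : NullH n F := by
  intro h hi _
  have h1 : (h ⁻¹' F).Finite := hF.preimage hi.injOn
  have := Measure.nullSingletonClass_hausdorff (E n) (zero_lt_one (α := ℝ))
  exact h1.measure_zero _

theorem cell_ne_univ [CompactSpace N] (hn : 0 < n) {c : E n → N} (hc : IsCell n c) :
    ((range c)ᶜ).Nonempty := by
  rw [nonempty_compl]
  intro h
  have : Nonempty (Fin n) := ⟨⟨0, hn⟩⟩
  have h1 : IsCompact (c ⁻¹' univ) := hc.emb.isInducing.isCompact_preimage' isCompact_univ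
    (by rw [h])
  rw [preimage_univ] at h1
  exact noncompact_univ (E n) h1

/-- a homeomorphism which is a local diffeomorphism off the preimage of an open cell, when this
preimage is an open cell -/
theorem of_region [CompactSpace M] [T2Space M] [CompactSpace N] [T2Space N] (hn : 0 < n)
    (g : M ≃ₜ N) {c : E n → N} (hc : IsCell n c) {cM : E n → M} (hcM : IsCell n cM)
    (hr : range cM = g ⁻¹' range c) (hg : ∀ x, g x ∉ range c → LD n g x) : OffPoint n M N := by
  refine Asm.main End.main n M N (range cM)ᶜ (range c)ᶜ cM c g hn (cell_ne_univ hn hcM) hcM.1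
    hcM.2 (compl_compl _).symm hc.1 hc.2 (compl_compl _).symm (fun x hx => hg x ?_)
    g.injective.injOn ?_
  · rw [hr] at hx
    exact hx
  · rw [hr, ← preimage_compl]
    exact image_preimage_eq _ g.surjective

/-- a homeomorphism which is a local diffeomorphism off the preimage of an open cell, where it is
smooth off a null set -/
theorem of_null [CompactSpace M] [T2Space M] [CompactSpace N] [T2Space N] (hn : 0 < n)
    (g : M ≃ₜ N) {c : E n → N} (hc : IsCell n c) (hnull : NullH n (g '' Bad n g))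
    (hg : ∀ x, g x ∉ range c → LD n g x) : OffPoint n M N := by
  obtain ⟨cM, h1, h2, h3⟩ := Cell.main n M N g c hnull hc.1 hc.2
  exact of_region hn g hc ⟨h1, h2⟩ h3 hg

/-- a homeomorphism which is a local diffeomorphism off a finite set -/
theorem of_finite [CompactSpace M] [T2Space M] [CompactSpace N] [T2Space N]
    [ConnectedSpace N] (hn : 0 < n) (g : M ≃ₜ N) (hg : {x | ¬ LD n g x}.Finite) :
    OffPoint n M N := by
  obtain ⟨c, hc, hF⟩ := common_finite (n := n) (g '' {x | ¬ LD n g x}) (hg.image g)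
  refine of_null hn g hc (nullH_finite ((hg.subset (bad_sub g)).image g)) fun x hx => ?_
  by_contra h
  exact hx (hF ⟨x, h, rfl⟩)

theorem OffPoint.trans [CompactSpace M] [T2Space M] [CompactSpace P] [T2Space P]
    [ConnectedSpace P] (hn : 0 < n) (h1 : OffPoint n M N) (h2 : OffPoint n N P) :
    OffPoint n M P := by
  obtain ⟨G, x₀, hG⟩ := h1
  obtain ⟨H, y₀, hH⟩ := h2
  refine of_finite hn (G.trans H) (((finite_singleton x₀).union
    (finite_singleton (G.symm y₀))).subset ?_)
  intro x hx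
  by_contra hcon
  simp only [mem_union, mem_singleton_iff, not_or] at hcon
  apply hx
  have h3 : G x ≠ y₀ := fun h => hcon.2 (by rw [← h, G.symm_apply_apply])
  exact LD.comp_fun (g := H) (f := G) (hH _ h3) (hG _ hcon.1)

/-- a homeomorphism which is a local diffeomorphism off the preimage of an open ball, when this
preimage is diffeomorphic to an open subset of the Euclidean space -/
theorem of_ball {m : ℕ} {M N : Type} [TopologicalSpace M] [ChartedSpace (E (m + 1)) M]
    [IsManifold (𝓡 (m + 1)) ∞ M] [TopologicalSpace N] [ChartedSpace (E (m + 1)) N]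
    [IsManifold (𝓡 (m + 1)) ∞ N] [CompactSpace M] [T2Space M] [CompactSpace N] [T2Space N]
    (g : M ≃ₜ N) {c : E (m + 1) → N} (hc : IsCell (m + 1) c)
    (hg : ∀ x, g x ∉ range c → LD (m + 1) g x) (i : M → E (m + 1))
    (hi : InjOn i (g ⁻¹' range c)) (hil : ∀ x, g x ∈ range c → LD (m + 1) i x) :
    OffPoint (m + 1) M N := by
  have hemb := hc.emb
  let U : TopologicalSpace.Opens M := ⟨g ⁻¹' range c, hemb.isOpen_range.preimage g.continuous⟩
  have hU : ∀ x : U, g x ∈ range c := fun x => x.2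
  obtain ⟨ci, hci'⟩ : ∃ ci : N → E (m + 1), ∀ z, ci (c z) = z :=
    ⟨invFun c, leftInverse_invFun hc.1⟩
  have hcc : ∀ y ∈ range c, c (ci y) = y := by
    rintro _ ⟨z, rfl⟩; rw [hci']
  have hcild : ∀ z, LD (m + 1) ci (c z) := fun z =>
    LD.inverse (n := m + 1) isOpen_univ (fun x _ => hc.2 x) (fun x _ => hci' x) (mem_univ z)
  have hmem : ∀ z, g.symm (c z) ∈ U := fun z => by
    show g (g.symm (c z)) ∈ range c
    rw [g.apply_symm_apply]; exact ⟨z, rfl⟩
  let H : U ≃ₜ E (m + 1) :=
    { toFun := fun x => ci (g x)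
      invFun := fun z => ⟨g.symm (c z), hmem z⟩
      left_inv := fun x => by
        apply Subtype.ext
        show g.symm (c (ci (g x))) = x
        rw [hcc _ (hU x), g.symm_apply_apply]
      right_inv := fun z => by
        show ci (g (g.symm (c z))) = z
        rw [g.apply_symm_apply, hci']
      continuous_toFun := by
        rw [continuous_iff_continuousAt]
        intro x
        obtain ⟨z, hz⟩ := hU x
        have h1 : ContinuousAt ci (g x) := by rw [← hz]; exact (hcild z).continuousAt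
        exact ContinuousAt.comp (f := fun x : U => g x) h1
          ((g.continuous.comp continuous_subtype_val).continuousAt)
      continuous_invFun := Continuous.subtype_mk (g.symm.continuous.comp hemb.continuous) hmem }
  have hH : ∀ x : U, H x = ci (g x) := fun _ => rfl
  have hHs : ∀ z, c z = g (H.symm z) := fun z => by
    show c z = g (g.symm (c z))
    rw [g.apply_symm_apply]
  have hgood : ∀ x : U, LD (m + 1) g (x : M) → LD (m + 1) H x := by
    intro x hx
    obtain ⟨z, hz⟩ := hU x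
    refine LD.comp_fun (g := ci) (f := fun x : U => g x) ?_ ?_
    · rw [← hz]; exact hcild z
    · exact LD.comp_fun (g := g) (f := (Subtype.val : U → M)) hx
        (Pool.Agent.N550.SH.ld_opens U x)
  -- the exceptional set is compact
  have hB : IsCompact {x | ¬ LD (m + 1) g x} := by
    refine IsClosed.isCompact ?_
    rw [← isOpen_compl_iff]
    have : {x | ¬ LD (m + 1) g x}ᶜ = {x | LD (m + 1) g x} := by ext x; simp
    rw [this]
    exact Fin'.isOpen_ld g
  have hB2 : IsCompact (c ⁻¹' (g '' {x | ¬ LD (m + 1) g x})) := by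
    refine hemb.isInducing.isCompact_preimage' (hB.image g.continuous) ?_
    rintro _ ⟨x, hx, rfl⟩
    by_contra h
    exact hx (hg x h)
  obtain ⟨R, hR⟩ := hB2.isBounded.subset_closedBall (0 : E (m + 1))
  have hHR : ∀ x : U, R < ‖H x‖ → LD (m + 1) H x := by
    intro x hx
    refine hgood x ?_
    by_contra h
    have h1 : H x ∈ c ⁻¹' (g '' {x | ¬ LD (m + 1) g x}) := by
      refine ⟨x, h, ?_⟩
      rw [hH, hcc _ (hU x)]
    have h2 := hR h1
    rw [mem_closedBall_zero_iff] at h2
    linarith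
  have hEng := Pool.Agent.U890.SB.eng_of_embedding (m := m) U H R hHR (fun x => i x)
    (fun x y hxy => Subtype.ext (hi x.2 y.2 hxy)) (fun x => LD.comp_fun (g := i)
      (f := (Subtype.val : U → M)) (hil x x.2) (Pool.Agent.N550.SH.ld_opens U x))
  have : T2Space U := H.symm.t2Space
  have : SigmaCompactSpace U := H.isClosedEmbedding.sigmaCompactSpace
  obtain ⟨Φ⟩ := Pool.Agent.Y496.SH.monotone (Pool.Agent.Y784.SH.ext Pool.Agent.Y248.SH.germ)
    (m + 1) U hEng
  refine of_region (Nat.succ_pos m) g hc (cM := fun z => (Φ.symm z : M))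
    ⟨Subtype.val_injective.comp Φ.symm.injective, fun z => ?_⟩ ?_ hg
  · exact LD.comp_fun (g := (Subtype.val : U → M)) (Pool.Agent.N550.SH.ld_opens U (Φ.symm z))
      (Φ.symm.isLocalDiffeomorph z)
  · ext x
    constructor
    · rintro ⟨z, rfl⟩
      exact hU (Φ.symm z)
    · intro hx
      exact ⟨Φ ⟨x, hx⟩, by simp⟩

/-- conversely -/
theorem to_ball [CompactSpace M] [T2Space M] (G : M ≃ₜ N) (x₀ : M)
    (hG : ∀ x, x ≠ x₀ → LD n G x) :
    ∃ (c : E n → N) (i : M → E n), IsCell n c ∧ (∀ x, G x ∉ c '' ball 0 1 → LD n G x) ∧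
      InjOn i (G ⁻¹' (c '' ball 0 1)) ∧ ∀ x, G x ∈ c '' ball 0 1 → LD n i x := by
  obtain ⟨c, hi, hl, h0⟩ := Pool.Agent.N550.TS.Flm.exists_cell0 (n := n) (G x₀)
  have hc : IsCell n c := ⟨hi, hl⟩
  obtain ⟨hc1, hr1⟩ := hc.small (r := 1) one_pos
  have hbad : {x | ¬ LD n G x} ⊆ {x₀} := by
    intro x hx
    by_contra h
    exact hx (hG x h)
  obtain ⟨cM, h1, h2, h3⟩ := Cell.main n M N G _
    (nullH_finite (((finite_singleton x₀).subset ((bad_sub G).trans hbad)).image G)) hc1.1 hc1.2
  rw [hr1] at h3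
  have hs : ∀ z, invFun cM (cM z) = z := leftInverse_invFun h1
  refine ⟨c, invFun cM, hc, fun x hx => ?_, ?_, ?_⟩
  · refine hG x fun h => hx ?_
    rw [h]
    exact ⟨0, mem_ball_self one_pos, h0⟩
  · rw [← h3]
    rintro _ ⟨a, rfl⟩ _ ⟨b, rfl⟩ hab
    rw [hs, hs] at hab
    rw [hab]
  · intro x hx
    have hx' : x ∈ G ⁻¹' (c '' ball 0 1) := hx
    rw [← h3] at hx'
    obtain ⟨z, rfl⟩ := hx'
    exact LD.inverse isOpen_univ (fun x _ => h2 x) (fun x _ => hs x) (mem_univ z)

/-- a diffeomorphism of the complements of two points extends to a homeomorphism -/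
theorem of_complements [CompactSpace M] [T2Space M] [CompactSpace N] [T2Space N] (x₀ : M)
    (y₀ : N) (φ : M → N) (hφ : BijOn φ {x₀}ᶜ {y₀}ᶜ) (hl : ∀ x, x ≠ x₀ → LD n φ x) :
    OffPoint n M N := by
  classical
  obtain ⟨ψ, hψ1, hψ2⟩ : ∃ ψ : N → M, (∀ x, x ≠ x₀ → ψ (φ x) = x) ∧
      ∀ y, y ≠ y₀ → φ (ψ y) = y ∧ ψ y ≠ x₀ := by
    have hne : Nonempty M := ⟨x₀⟩
    refine ⟨invFunOn φ {x₀}ᶜ, fun x hx => hφ.invOn_invFunOn.1 hx, fun y hy => ⟨?_, ?_⟩⟩
    · exact hφ.invOn_invFunOn.2 hy
    · exact hφ.surjOn.mapsTo_invFunOn hy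
  have hφy : ∀ x, x ≠ x₀ → φ x ≠ y₀ := fun x hx => hφ.mapsTo hx
  let e : M ≃ N :=
    { toFun := fun x => if x = x₀ then y₀ else φ x
      invFun := fun y => if y = y₀ then x₀ else ψ y
      left_inv := fun x => by
        by_cases hx : x = x₀
        · simp [hx]
        · simp [hx, hφy x hx, hψ1 x hx]
      right_inv := fun y => by
        by_cases hy : y = y₀
        · simp [hy]
        · simp [hy, (hψ2 y hy).2, (hψ2 y hy).1] }
  have he0 : e x₀ = y₀ := if_pos rfl
  have he : ∀ x, x ≠ x₀ → e x = φ x := fun x hx => if_neg hx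
  have hel : ∀ x, x ≠ x₀ → LD n e x := by
    intro x hx
    refine (hl x hx).congr ?_
    filter_upwards [isOpen_compl_singleton.mem_nhds hx] with y hy
    exact he y hy
  have hes : ∀ y, y ≠ y₀ → ContinuousAt e.symm y := by
    intro y hy
    have h1 : e.symm y ≠ x₀ := fun h => hy (by rw [← he0, ← h, e.apply_symm_apply])
    have h2 : LD n e.symm (e (e.symm y)) := LD.inverse (U := {x₀}ᶜ) isOpen_compl_singleton
      (fun x hx => hel x hx) (fun x _ => e.symm_apply_apply x) h1
    rw [e.apply_symm_apply] at h2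
    exact h2.continuousAt
  have hcont : Continuous e := by
    rw [continuous_iff_continuousAt]
    intro x
    by_cases hx : x = x₀
    · subst hx
      intro V hV
      obtain ⟨V', hV'V, hV'o, hyV'⟩ := mem_nhds_iff.1 hV
      rw [he0] at hyV'
      have h1 : IsCompact (V'ᶜ) := hV'o.isClosed_compl.isCompact
      have h2 : IsCompact (e.symm '' V'ᶜ) := h1.image_of_continuousOn fun y hy =>
        (hes y fun h => hy (h ▸ hyV')).continuousWithinAt
      have h3 : x ∈ (e.symm '' V'ᶜ)ᶜ := by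
        rintro ⟨y, hy, hyx⟩
        apply hy
        have : y = e x := by rw [← hyx, e.apply_symm_apply]
        rw [this, he0]
        exact hyV'
      show e ⁻¹' V ∈ 𝓝 x
      refine mem_of_superset (h2.isClosed.isOpen_compl.mem_nhds h3) fun w hw => ?_
      apply hV'V
      by_contra h
      exact hw ⟨e w, h, e.symm_apply_apply w⟩
    · exact (hel x hx).continuousAt
  exact ⟨hcont.homeoOfEquivCompactToT2, x₀, fun x hx => hel x hx⟩

theorem to_complements (G : M ≃ₜ N) (x₀ : M) (hG : ∀ x, x ≠ x₀ → LD n G x) :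
    ∃ (x₀ : M) (y₀ : N) (φ : M → N), BijOn φ {x₀}ᶜ {y₀}ᶜ ∧ ∀ x, x ≠ x₀ → LD n φ x := by
  refine ⟨x₀, G x₀, G, ⟨fun x hx h => hx (G.injective h), G.injective.injOn, fun y hy => ?_⟩, hG⟩
  refine ⟨G.symm y, fun h => hy ?_, G.apply_symm_apply y⟩
  have h' : G.symm y = x₀ := h
  show y = G x₀
  rw [← h', G.apply_symm_apply]

end one

end Pool.Agent.U212.SM
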