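import Pool.Agent.U212.SM.Zero
import Pool.Agent.N550.CQ.CellQ
import Pool.Agent.N550.CQ.Cok
import Pool.Agent.N550.CQ.Rkm
import Pool.Agent.N550.CQ.Sard0
import Pool.Agent.N550.RF.Rkc

/-!
# Homeomorphisms without points of intermediate rank, off sets of length zero

Let `f : M → N` be a homeomorphism of closed manifolds of dimension `m + 1 ≥ 2`, with `N` connected.
If `f` is smooth off a set whose image has length zero, and if the image of the set of the points at
which the derivative has a rank between one and `m - 1` has length zero, then some homeomorphism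
`M → N` is a local diffeomorphism off one point.
-/

set_option autoImplicit false
set_option linter.unusedSectionVars false

open Set Filter Topology Metric Function MeasureTheory
open scoped Manifold ContDiff

noncomputable section

namespace Pool.Agent.U212.SM

open Pool.Agent.Y522 Pool.Agent.N550.KH Pool.Agent.N550.CQ

theorem of_rank {m : ℕ} {M N : Type} [TopologicalSpace M] [CompactSpace M] [T2Space M]
    [ChartedSpace (E (m + 1)) M] [IsManifold (𝓡 (m + 1)) ∞ M] [TopologicalSpace N]
    [CompactSpace N] [T2Space N] [ConnectedSpace N] [ChartedSpace (E (m + 1)) N]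
    [IsManifold (𝓡 (m + 1)) ∞ N] (f : M ≃ₜ N) (hm : 0 < m)
    (h1 : NullH (m + 1) (f '' Bad (m + 1) f))
    (h2 : NullH (m + 1) (f '' {x | x ∉ Bad (m + 1) f ∧ 0 < rk (m + 1) f x ∧
      rk (m + 1) f x < m})) :
    OffPoint (m + 1) M N := by
  haveI : SecondCountableTopology M := ChartedSpace.secondCountable_of_sigmaCompact (E (m + 1)) M
  have hZ : IsClosed {x | x ∈ Bad (m + 1) f ∨ rk (m + 1) f x < m} := Pool.Agent.N550.RF.Rkc.main m M N f
  have hFc : IsCompact (f '' {x | x ∈ Bad (m + 1) f ∨ rk (m + 1) f x < m}) :=
    hZ.isCompact.image f.continuous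
  have hF : NullH (m + 1) (f '' {x | x ∈ Bad (m + 1) f ∨ rk (m + 1) f x < m}) := by
    intro h hi hld
    have e1 := h1 h hi hld
    have e2 := h2 h hi hld
    have e3 := (Pool.Agent.N550.CQ.Rkm.main Pool.Agent.N550.CQ.Sard0.main) (m + 1) M N f f.continuous h hi hld
    refine measure_mono_null ?_ (measure_union_null (measure_union_null e1 e2) e3)
    rw [← preimage_union, ← preimage_union, ← image_union, ← image_union]
    refine preimage_mono (image_mono ?_)
    rintro x (hx | hx)
    · exact Or.inl (Or.inl hx)
    · by_cases hb : x ∈ Bad (m + 1) f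
      · exact Or.inl (Or.inl hb)
      · by_cases h0 : rk (m + 1) f x = 0
        · exact Or.inr ⟨hb, h0⟩
        · exact Or.inl (Or.inr ⟨hb, Nat.pos_of_ne_zero h0, hx⟩)
  haveI : Nonempty N := ConnectedSpace.toNonempty
  obtain ⟨c, hc, hcF⟩ := common_null (n := m + 1) _ hFc hF
  exact Pool.Agent.N550.CQ.CellQ.main Pool.Agent.N550.CQ.Cok.main m M N f _ c h1 hZ (fun x hx => Or.inl hx)
    (fun x hx => by
      by_contra hlt
      exact hx (Or.inr (not_le.1 hlt))) hc.1 hc.2 hcF

end Pool.Agent.U212.SM
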