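import Pool.Agent.U212.SM.Cells

/-!
# Compact sets of length zero lie in open cells

Every compact subset of length zero (one-dimensional Hausdorff measure zero) of a connected manifold
lies in an open cell.
-/

set_option autoImplicit false
set_option linter.unusedSectionVars false

open Set Filter Topology Metric Function MeasureTheory
open scoped Manifold ContDiff

noncomputable section

namespace Pool.Agent.U212.SM

open Pool.Agent.Y522 Pool.Agent.N550.KH

/-- a set of length zero misses some sphere -/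
theorem exists_radius {n : ℕ} {A : Set (E n)} (hA : Measure.hausdorffMeasure 1 A = 0) {a b : ℝ}
    (hab : a < b) : ∃ r ∈ Ioo a b, ∀ z ∈ A, ‖z‖ ≠ r := by
  have h1 : volume ((fun z : E n => ‖z‖) '' A) = 0 := by
    rw [← hausdorffMeasure_real]
    have h := (lipschitzWith_one_norm (E := E n)).hausdorffMeasure_image_le (d := 1)
      zero_le_one A
    rw [hA, mul_zero] at h
    exact le_antisymm h bot_le
  by_contra hcon
  push Not at hcon
  have h2 : Ioo a b ⊆ (fun z : E n => ‖z‖) '' A := by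
    intro r hr
    obtain ⟨z, hz, hzr⟩ := hcon r hr
    exact ⟨z, hz, hzr⟩
  have h3 : volume (Ioo a b) = 0 := measure_mono_null h2 h1
  rw [Real.volume_Ioo, ENNReal.ofReal_eq_zero] at h3
  linarith

section

variable {n : ℕ} {N : Type} [TopologicalSpace N] [ChartedSpace (E n) N] [T2Space N]

theorem IsCell.pull {c : E n → N} (hc : IsCell n c) {K : N → N} (hK : IsDf n K) :
    ∃ c' : E n → N, IsCell n c' ∧ ∀ x, K x ∈ range c → x ∈ range c' := by
  have hne : Nonempty N := ⟨c 0⟩
  have hinv : ∀ x, invFun K (K x) = x := leftInverse_invFun hK.1.1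
  have hinvl : ∀ y, LD n (invFun K) y := LD.inverse_bij hK.1 hK.2 hinv
  have hinvr : ∀ y, K (invFun K y) = y := rightInverse_invFun hK.1.2
  refine ⟨fun z => invFun K (c z), ⟨?_, fun z => LD.comp_fun (hinvl _) (hc.2 z)⟩, ?_⟩
  · intro x y hxy
    apply hc.1
    rw [← hinvr (c x), ← hinvr (c y)]
    exact congrArg K hxy
  · rintro x ⟨z, hz⟩
    refine ⟨z, ?_⟩
    show invFun K (c z) = x
    rw [hz, hinv]

theorem compact_in_ball {c : E n → N} (hc : IsCell n c) {F : Set N} (hF : IsCompact F)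
    (hFc : F ⊆ range c) : ∃ R : ℝ, F ⊆ c '' closedBall 0 R := by
  have h1 : IsCompact (c ⁻¹' F) := hc.emb.isInducing.isCompact_preimage' hF hFc
  obtain ⟨R, hR⟩ := h1.isBounded.subset_closedBall (0 : E n)
  refine ⟨R, fun x hx => ?_⟩
  obtain ⟨w, rfl⟩ := hFc hx
  exact ⟨w, hR hx, rfl⟩

/-- a compact part of a cell is shrunk into a small neighbourhood of the centre -/
theorem shrink {c : E n → N} (hc : IsCell n c) {F : Set N} (hF : IsCompact F)
    (hFc : F ⊆ range c) {V : Set N} (hV : V ∈ 𝓝 (c 0)) :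
    ∃ K : N → N, IsDf n K ∧ (∀ x, x ∉ range c → K x = x) ∧ ∀ x ∈ F, K x ∈ V := by
  obtain ⟨R, hR⟩ := compact_in_ball hc hF hFc
  have h1 : c ⁻¹' V ∈ 𝓝 (0 : E n) := hc.emb.continuous.continuousAt hV
  obtain ⟨ε, hε, hεV⟩ := Metric.mem_nhds_iff.1 h1
  obtain ⟨κ, hκ, ⟨R', hκs⟩, hκb⟩ := Shift.s_bs n 0 ε R hε
  have hinv : ∀ x, invFun κ (κ x) = x := leftInverse_invFun hκ.1.1
  have hinvl : ∀ y, LD n (invFun κ) y := LD.inverse_bij hκ.1 hκ.2 hinv
  have hinvr : ∀ y, κ (invFun κ y) = y := rightInverse_invFun hκ.1.2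
  have hdf : IsDf n (invFun κ) :=
    ⟨⟨fun x y h => by rw [← hinvr x, ← hinvr y, h], fun x => ⟨κ x, hinv x⟩⟩, hinvl⟩
  obtain ⟨K, hK, hKb, hKo⟩ := Supp.main n N c hc.1 hc.2 (invFun κ) hdf
    ⟨R', fun z hz => by
      have := hinv z
      rw [hκs z hz] at this
      exact this⟩
  refine ⟨K, hK, hKo, ?_⟩
  intro x hx
  obtain ⟨w, hw, rfl⟩ := hR hx
  rw [hKb]
  obtain ⟨v, hv, rfl⟩ := hκb hw
  rw [hinv]
  exact hεV hv

variable [IsManifold (𝓡 n) ∞ N] [PreconnectedSpace N]

/-- one more point in the cell -/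
theorem add_point {c : E n → N} (hc : IsCell n c) {F : Set N} (hF : IsCompact F)
    (hFc : F ⊆ range c) (p : N) :
    ∃ c' : E n → N, IsCell n c' ∧ F ⊆ range c' ∧ p ∈ range c' := by
  by_cases hz : p ∈ range c
  · exact ⟨c, hc, hFc, hz⟩
  obtain ⟨c', hc', hy, hzc'⟩ := common_two (n := n) (c 0) p
  obtain ⟨R, hR⟩ := compact_in_ball hc hF hFc
  obtain ⟨K, hK, hKo, hKr⟩ := expand hc hc' ⟨c 0, mem_range_self 0, hy⟩ R
  refine ⟨fun z => K (c' z), hc'.push hK, hR.trans hKr, ?_⟩
  obtain ⟨w, rfl⟩ := hzc'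
  exact ⟨w, hKo _ hz⟩

/-- a compact set which is covered by finitely many cells with compact intersections -/
theorem common_cover [Nonempty N] (s : Finset (E n → N)) (hs : ∀ c ∈ s, IsCell n c) (F : Set N)
    (hF : IsCompact F) (hFs : ∀ c ∈ s, IsCompact (F ∩ range c))
    (hcov : ∀ x ∈ F, ∃ c ∈ s, x ∈ range c) : ∃ C : E n → N, IsCell n C ∧ F ⊆ range C := by
  classical
  induction s using Finset.induction_on generalizing F with
  | empty =>
    obtain ⟨x⟩ := (inferInstance : Nonempty N)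
    obtain ⟨c', hi', hl', h0⟩ := Pool.Agent.N550.TS.Flm.exists_cell0 (n := n) x
    refine ⟨c', ⟨hi', hl'⟩, fun y hy => ?_⟩
    obtain ⟨c, hc, -⟩ := hcov y hy
    exact absurd hc (Finset.notMem_empty c)
  | @insert c₀ s _ ih =>
    have hc₀ : IsCell n c₀ := hs c₀ (Finset.mem_insert_self _ _)
    have hF' : IsCompact (F \ range c₀) := hF.diff hc₀.emb.isOpen_range
    obtain ⟨C, hC, hFC⟩ := ih (fun c hc => hs c (Finset.mem_insert_of_mem hc)) (F \ range c₀) hF'
      (fun c hc => by
        have h1 := (hFs c (Finset.mem_insert_of_mem hc)).diff hc₀.emb.isOpen_range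
        have h2 : (F \ range c₀) ∩ range c = (F ∩ range c) \ range c₀ := by
          ext x; simp only [mem_inter_iff, Set.mem_sdiff]; tauto
        rw [h2]
        exact h1)
      (fun x hx => by
        obtain ⟨c, hc, hxc⟩ := hcov x hx.1
        rcases Finset.mem_insert.1 hc with rfl | hc
        · exact absurd hxc hx.2
        · exact ⟨c, hc, hxc⟩)
    obtain ⟨C', hC', hFC', hp⟩ := add_point hC hF' hFC (c₀ 0)
    obtain ⟨K, hK, hKo, hKF⟩ := shrink hc₀ (hFs c₀ (Finset.mem_insert_self _ _))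
      inter_subset_right (hC'.emb.isOpen_range.mem_nhds hp)
    obtain ⟨D, hD, hDK⟩ := hC'.pull hK
    refine ⟨D, hD, fun x hx => hDK x ?_⟩
    by_cases hxc : x ∈ range c₀
    · exact hKF x ⟨hx, hxc⟩
    · rw [hKo x hxc]
      exact hFC' ⟨hx, hxc⟩

/-- **A compact subset of length zero of a connected manifold lies in an open cell.** -/
theorem common_null [Nonempty N] (F : Set N) (hF : IsCompact F) (hnull : NullH n F) :
    ∃ C : E n → N, IsCell n C ∧ F ⊆ range C := by
  classical
  have hloc : ∀ x : N, ∃ c : E n → N, IsCell n c ∧ x ∈ range c ∧ IsCompact (F ∩ range c) := by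
    intro x
    obtain ⟨c, hi, hl, h0⟩ := Pool.Agent.N550.TS.Flm.exists_cell0 (n := n) x
    have hc : IsCell n c := ⟨hi, hl⟩
    obtain ⟨r, hr, hrF⟩ := exists_radius (hnull c hi hl) (zero_lt_one (α := ℝ))
    obtain ⟨h1, h2⟩ := hc.small hr.1
    refine ⟨_, h1, ?_, ?_⟩
    · rw [h2]
      exact ⟨0, mem_ball_self hr.1, h0⟩
    · rw [h2]
      have h3 : F ∩ c '' ball 0 r = F ∩ c '' closedBall 0 r := by
        ext y
        constructor
        · rintro ⟨hy, z, hz, rfl⟩
          exact ⟨hy, z, ball_subset_closedBall hz, rfl⟩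
        · rintro ⟨hy, z, hz, rfl⟩
          refine ⟨hy, z, ?_, rfl⟩
          rw [mem_closedBall_zero_iff] at hz
          rw [mem_ball_zero_iff]
          exact lt_of_le_of_ne hz (hrF z hy)
      rw [h3]
      exact hF.inter_right ((isCompact_closedBall 0 r).image hc.emb.continuous).isClosed
  choose c hc hxc hcF using hloc
  obtain ⟨t, -, ht⟩ := hF.elim_nhds_subcover (fun x => range (c x)) fun x _ =>
    (hc x).emb.isOpen_range.mem_nhds (hxc x)
  refine common_cover (t.image c) ?_ F hF ?_ ?_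
  · intro d hd
    obtain ⟨x, -, rfl⟩ := Finset.mem_image.1 hd
    exact hc x
  · intro d hd
    obtain ⟨x, -, rfl⟩ := Finset.mem_image.1 hd
    exact hcF x
  · intro y hy
    obtain ⟨x, hx, hyx⟩ := mem_iUnion₂.1 (ht hy)
    exact ⟨c x, Finset.mem_image_of_mem c hx, hyx⟩

end

/-- a homeomorphism of closed connected manifolds which is a local diffeomorphism off a set with an
image of length zero -/
theorem of_length_zero {n : ℕ} {M N : Type} [TopologicalSpace M] [ChartedSpace (E n) M]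
    [IsManifold (𝓡 n) ∞ M] [TopologicalSpace N] [ChartedSpace (E n) N] [IsManifold (𝓡 n) ∞ N]
    [CompactSpace M] [T2Space M] [CompactSpace N] [T2Space N] [ConnectedSpace N] (hn : 0 < n)
    (g : M ≃ₜ N) (hg : NullH n (g '' {x | ¬ LD n g x})) : OffPoint n M N := by
  have hB : IsCompact {x | ¬ LD n g x} := by
    refine IsClosed.isCompact ?_
    rw [← isOpen_compl_iff]
    have : {x | ¬ LD n g x}ᶜ = {x | LD n g x} := by ext x; simp
    rw [this]
    exact Fin'.isOpen_ld g
  obtain ⟨c, hc, hF⟩ := common_null (n := n) (g '' {x | ¬ LD n g x}) (hB.image g.continuous) hg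
  refine of_null hn g hc (Fin'.nullH_mono (image_mono (bad_sub g)) hg) fun x hx => ?_
  by_contra h
  exact hx (hF ⟨x, h, rfl⟩)

end Pool.Agent.U212.SM
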